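import Pool.Agent.H629.TA.Stm

/-!
TA-XX (helper746): second factorial moment of the number of new triangles.
-/

set_option autoImplicit false

open Finset

namespace Pool.Agent.H746.TA.XX

open Pool.Agent.H629.TA

/-! ### small draws -/

lemma draw_zero (s : Finset ℕ) (p : ℕ → ℝ) (φ : (Fin 0 → ℕ) → ℝ) (j₀ : Fin 0 → ℕ) :
    draw 0 s p φ = φ j₀ := by
  unfold draw
  rw [Finset.sum_eq_single j₀]
  · simp
  · intro b _ hb
    exact absurd (Subsingleton.elim b j₀) hb
  · intro h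
    exact absurd (Fintype.mem_piFinset.mpr fun a => a.elim0) h

lemma draw_succ (r : ℕ) (s : Finset ℕ) (p : ℕ → ℝ) (φ : (Fin (r + 1) → ℕ) → ℝ) :
    draw (r + 1) s p φ = ∑ a ∈ s, p a * draw r s p (fun j => φ (Fin.cons a j)) := by
  unfold draw
  simp_rw [Finset.mul_sum]
  rw [← Finset.sum_product']
  refine Finset.sum_nbij' (fun j => (j 0, Fin.tail j)) (fun x => Fin.cons x.1 x.2) ?_ ?_ ?_ ?_ ?_
  · intro j hj
    rw [Fintype.mem_piFinset] at hj
    refine Finset.mem_product.mpr ⟨hj 0, Fintype.mem_piFinset.mpr fun l => hj l.succ⟩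
  · intro x hx
    rw [Finset.mem_product, Fintype.mem_piFinset] at hx
    rw [Fintype.mem_piFinset]
    intro l
    refine Fin.cases ?_ (fun l => ?_) l
    · simpa using hx.1
    · simpa using hx.2 l
  · intro j _
    exact Fin.cons_self_tail j
  · intro x _
    simp
  · intro j _
    rw [Fin.prod_univ_succ, Fin.cons_self_tail, mul_assoc]
    rfl

lemma draw_two (s : Finset ℕ) (p : ℕ → ℝ) (F : ℕ → ℕ → ℝ) :
    draw 2 s p (fun j => F (j 0) (j 1)) = ∑ a ∈ s, ∑ b ∈ s, p a * (p b * F a b) := by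
  rw [draw_succ]
  refine Finset.sum_congr rfl fun a _ => ?_
  rw [draw_succ, Finset.mul_sum]
  refine Finset.sum_congr rfl fun b _ => ?_
  rw [draw_zero _ _ _ (fun _ => 0)]
  rfl

lemma draw_three (s : Finset ℕ) (p : ℕ → ℝ) (F : ℕ → ℕ → ℕ → ℝ) :
    draw 3 s p (fun j => F (j 0) (j 1) (j 2)) =
      ∑ a ∈ s, ∑ b ∈ s, ∑ c ∈ s, p a * (p b * (p c * F a b c)) := by
  rw [draw_succ]
  refine Finset.sum_congr rfl fun a _ => ?_
  rw [draw_succ, Finset.mul_sum]
  refine Finset.sum_congr rfl fun b _ => ?_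
  rw [draw_succ, Finset.mul_sum, Finset.mul_sum]
  refine Finset.sum_congr rfl fun c _ => ?_
  rw [draw_zero _ _ _ (fun _ => 0)]
  rfl

lemma draw_four (s : Finset ℕ) (p : ℕ → ℝ) (F : ℕ → ℕ → ℕ → ℕ → ℝ) :
    draw 4 s p (fun j => F (j 0) (j 1) (j 2) (j 3)) =
      ∑ a ∈ s, ∑ b ∈ s, ∑ c ∈ s, ∑ d ∈ s, p a * (p b * (p c * (p d * F a b c d))) := by
  rw [draw_succ]
  refine Finset.sum_congr rfl fun a _ => ?_
  rw [draw_succ, Finset.mul_sum]
  refine Finset.sum_congr rfl fun b _ => ?_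
  rw [draw_succ, Finset.mul_sum, Finset.mul_sum]
  refine Finset.sum_congr rfl fun c _ => ?_
  rw [draw_succ, Finset.mul_sum, Finset.mul_sum, Finset.mul_sum]
  refine Finset.sum_congr rfl fun d _ => ?_
  rw [draw_zero _ _ _ (fun _ => 0)]
  rfl

lemma draw_sum {ι : Type} (m : ℕ) (s : Finset ℕ) (p : ℕ → ℝ) (t : Finset ι)
    (f : ι → (Fin m → ℕ) → ℝ) :
    draw m s p (fun j => ∑ i ∈ t, f i j) = ∑ i ∈ t, draw m s p (f i) := by
  unfold draw
  simp_rw [Finset.mul_sum]
  rw [Finset.sum_comm]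

lemma cnt_sum {m : ℕ} (s : Finset ℕ) (j : Fin m → ℕ) (hj : ∀ l, j l ∈ s) (f : ℕ → ℝ) :
    ∑ a ∈ s, (cnt j a : ℝ) * f a = ∑ l, f (j l) := by
  have h : ∀ a, (cnt j a : ℝ) = ∑ l : Fin m, if j l = a then (1 : ℝ) else 0 := by
    intro a
    unfold cnt
    rw [Finset.card_filter]
    push_cast
    rfl
  simp_rw [h, Finset.sum_mul]
  rw [Finset.sum_comm]
  refine Finset.sum_congr rfl fun l _ => ?_
  simp_rw [ite_mul, one_mul, zero_mul]
  rw [Finset.sum_ite_eq, if_pos (hj l)]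

/-- the pairs of indices -/
def PP (m : ℕ) : Finset (Fin m × Fin m) := univ.filter fun π => π.1 < π.2

lemma pairs {m : ℕ} (f : Fin m → Fin m → ℝ) (h0 : ∀ l, f l l = 0) (hs : ∀ l k, f l k = f k l) :
    ∑ l, ∑ k, f l k = 2 * ∑ π ∈ PP m, f π.1 π.2 := by
  have h1 : ∀ l k : Fin m, f l k = (if l < k then f l k else 0) + (if k < l then f l k else 0) := by
    intro l k
    rcases lt_trichotomy l k with h | h | h
    · rw [if_pos h, if_neg (lt_asymm h), add_zero]
    · subst h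
      simp [h0]
    · rw [if_pos h, if_neg (lt_asymm h), zero_add]
  have h2 : ∑ l, ∑ k, (if k < l then f l k else 0) = ∑ l, ∑ k, (if l < k then f l k else 0) := by
    rw [Finset.sum_comm]
    refine Finset.sum_congr rfl fun k _ => Finset.sum_congr rfl fun l _ => ?_
    rw [hs l k]
  have h3 : ∑ π ∈ PP m, f π.1 π.2 = ∑ l, ∑ k, (if l < k then f l k else 0) := by
    rw [PP, Finset.sum_filter, ← Finset.univ_product_univ, Finset.sum_product]
  calc ∑ l, ∑ k, f l k
      = ∑ l, ∑ k, ((if l < k then f l k else 0) + (if k < l then f l k else 0)) :=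
        Finset.sum_congr rfl fun l _ => Finset.sum_congr rfl fun k _ => h1 l k
    _ = ∑ l, ∑ k, (if l < k then f l k else 0) + ∑ l, ∑ k, (if k < l then f l k else 0) := by
        simp_rw [Finset.sum_add_distrib]
    _ = 2 * ∑ π ∈ PP m, f π.1 π.2 := by rw [h2, h3]; ring

lemma xi_eq {m : ℕ} (s : Finset ℕ) (M : ℕ → ℕ → ℕ) (h0 : ∀ a, M a a = 0)
    (hs : ∀ a b, M a b = M b a) (j : Fin m → ℕ) (hj : ∀ l, j l ∈ s) :
    (1 / 2) * ∑ a ∈ s, ∑ b ∈ s, (M a b : ℝ) * ((cnt j a : ℝ) * (cnt j b : ℝ)) =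
      ∑ π ∈ PP m, (M (j π.1) (j π.2) : ℝ) := by
  have h1 : ∑ a ∈ s, ∑ b ∈ s, (M a b : ℝ) * ((cnt j a : ℝ) * (cnt j b : ℝ)) =
      ∑ l, ∑ k, (M (j l) (j k) : ℝ) := by
    have h2 : ∀ a, ∑ b ∈ s, (M a b : ℝ) * ((cnt j a : ℝ) * (cnt j b : ℝ)) =
        (cnt j a : ℝ) * ∑ k, (M a (j k) : ℝ) := by
      intro a
      rw [← cnt_sum s j hj (fun b => (M a b : ℝ)), Finset.mul_sum]
      refine Finset.sum_congr rfl fun b _ => ?_
      ring
    simp_rw [h2]
    exact cnt_sum s j hj (fun a => ∑ k, (M a (j k) : ℝ))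
  rw [h1, pairs (fun l k => (M (j l) (j k) : ℝ)) (fun l => by simp [h0]) (fun l k => by simp [hs])]
  ring

lemma inj2 {m : ℕ} (a b : Fin m) (h : a ≠ b) : Function.Injective ![a, b] := by
  intro x y hxy
  fin_cases x <;> fin_cases y <;> simp_all

lemma inj3 {m : ℕ} (a b c : Fin m) (h : a ≠ b) (h' : a ≠ c) (h'' : b ≠ c) :
    Function.Injective ![a, b, c] := by
  intro x y hxy
  fin_cases x <;> fin_cases y <;> simp_all

lemma inj4 {m : ℕ} (a b c d : Fin m) (h1 : a ≠ b) (h2 : a ≠ c) (h3 : a ≠ d) (h4 : b ≠ c)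
    (h5 : b ≠ d) (h6 : c ≠ d) : Function.Injective ![a, b, c, d] := by
  intro x y hxy
  fin_cases x <;> fin_cases y <;> simp_all

/-- TA-XX -/
theorem t_XX : S_DR → S_MG → S_XX := by
  intro hDR hMG m
  refine ⟨(m : ℝ) ^ 4, by positivity, ?_⟩
  intro s x L hx hL hsum M h0 hs ξ hξ
  set p : ℕ → ℝ := fun a => x a / L with hp
  set Q : ℝ := ∑ a ∈ s, ∑ b ∈ s, ((M a b : ℝ) * ((M a b : ℝ) - 1)) * (x a * x b) with hQ
  set R : ℝ := ∑ a ∈ s, x a * (∑ b ∈ s, (M a b : ℝ) * x b) ^ 2 with hR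
  set W : ℝ := ∑ a ∈ s, ∑ b ∈ s, (M a b : ℝ) * (x a * x b) with hW
  have hps : ∑ a ∈ s, p a = 1 := by
    rw [hp, ← Finset.sum_div, hsum, div_self hL.ne']
  have hp0 : ∀ a ∈ s, 0 ≤ p a := fun a ha => (div_pos (hx a ha) hL).le
  have hMM : ∀ n : ℕ, 0 ≤ (n : ℝ) * ((n : ℝ) - 1) := by
    intro n
    rcases Nat.eq_zero_or_pos n with h | h
    · simp [h]
    · have : (1 : ℝ) ≤ n := by exact_mod_cast h
      exact mul_nonneg (by linarith) (by linarith)
  have hQ0 : 0 ≤ Q := Finset.sum_nonneg fun a ha => Finset.sum_nonneg fun b hb =>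
    mul_nonneg (hMM _) (mul_nonneg (hx a ha).le (hx b hb).le)
  have hR0 : 0 ≤ R := Finset.sum_nonneg fun a ha => mul_nonneg (hx a ha).le (sq_nonneg _)
  have hT1 : 0 ≤ Q / L ^ 2 := by positivity
  have hT2 : 0 ≤ R / L ^ 3 := by positivity
  have hT3 : 0 ≤ W ^ 2 / L ^ 4 := by positivity
  -- the three kinds of expectations
  have e2 : ∀ l k : Fin m, l ≠ k → draw m s p (fun j =>
      (M (j l) (j k) : ℝ) * ((M (j l) (j k) : ℝ) - 1)) = Q / L ^ 2 := by
    intro l k hlk
    have := hMG m 2 s p ![l, k] (inj2 l k hlk) hps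
      (fun i => (M (i 0) (i 1) : ℝ) * ((M (i 0) (i 1) : ℝ) - 1))
    refine Eq.trans ?_ (this.trans ?_)
    · rfl
    · rw [draw_two s p (fun a b => (M a b : ℝ) * ((M a b : ℝ) - 1)), hQ, Finset.sum_div]
      refine Finset.sum_congr rfl fun a _ => ?_
      rw [Finset.sum_div]
      refine Finset.sum_congr rfl fun b _ => ?_
      simp only [hp]
      field_simp
  have e3 : ∀ c u v : Fin m, c ≠ u → c ≠ v → u ≠ v → draw m s p (fun j =>
      (M (j c) (j u) : ℝ) * (M (j c) (j v) : ℝ)) = R / L ^ 3 := by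
    intro c u v h1 h2 h3
    have := hMG m 3 s p ![c, u, v] (inj3 c u v h1 h2 h3) hps
      (fun i => (M (i 0) (i 1) : ℝ) * (M (i 0) (i 2) : ℝ))
    refine Eq.trans ?_ (this.trans ?_)
    · rfl
    · rw [draw_three s p (fun a b c => (M a b : ℝ) * (M a c : ℝ)), hR, Finset.sum_div]
      refine Finset.sum_congr rfl fun a _ => ?_
      rw [sq, Finset.sum_mul_sum, Finset.mul_sum, Finset.sum_div]
      refine Finset.sum_congr rfl fun b _ => ?_
      rw [Finset.mul_sum, Finset.sum_div]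
      refine Finset.sum_congr rfl fun c _ => ?_
      simp only [hp]
      field_simp
  have e4 : ∀ a b c d : Fin m, a ≠ b → a ≠ c → a ≠ d → b ≠ c → b ≠ d → c ≠ d →
      draw m s p (fun j => (M (j a) (j b) : ℝ) * (M (j c) (j d) : ℝ)) = W ^ 2 / L ^ 4 := by
    intro a b c d h1 h2 h3 h4 h5 h6
    have := hMG m 4 s p ![a, b, c, d] (inj4 a b c d h1 h2 h3 h4 h5 h6) hps
      (fun i => (M (i 0) (i 1) : ℝ) * (M (i 2) (i 3) : ℝ))
    refine Eq.trans ?_ (this.trans ?_)
    · rfl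
    · rw [draw_four s p (fun a b c d => (M a b : ℝ) * (M c d : ℝ)), hW, sq, Finset.sum_mul,
        Finset.sum_div]
      refine Finset.sum_congr rfl fun a _ => ?_
      rw [Finset.sum_mul, Finset.sum_div]
      refine Finset.sum_congr rfl fun b _ => ?_
      rw [Finset.mul_sum, Finset.sum_div]
      refine Finset.sum_congr rfl fun c _ => ?_
      rw [Finset.mul_sum, Finset.sum_div]
      refine Finset.sum_congr rfl fun d _ => ?_
      simp only [hp]
      field_simp
  -- decomposition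
  have hdec : draw m s p (fun j => ξ j * (ξ j - 1)) = draw m s p (fun j =>
      ∑ π ∈ PP m, ∑ π' ∈ PP m, if π = π' then
        (M (j π.1) (j π.2) : ℝ) * ((M (j π.1) (j π.2) : ℝ) - 1)
        else (M (j π.1) (j π.2) : ℝ) * (M (j π'.1) (j π'.2) : ℝ)) := by
    refine (hDR m s p).2.2.2.2.1 _ _ fun j hj => ?_
    have h1 : ξ j = ∑ π ∈ PP m, (M (j π.1) (j π.2) : ℝ) := by
      rw [hξ j, xi_eq s M h0 hs j hj]
    have h2 : ∀ π ∈ PP m, (∑ π' ∈ PP m, if π = π' then
        (M (j π.1) (j π.2) : ℝ) * ((M (j π.1) (j π.2) : ℝ) - 1)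
        else (M (j π.1) (j π.2) : ℝ) * (M (j π'.1) (j π'.2) : ℝ)) =
        (M (j π.1) (j π.2) : ℝ) * ξ j - (M (j π.1) (j π.2) : ℝ) := by
      intro π hπ
      have h3 : ∀ π' ∈ PP m, (if π = π' then
        (M (j π.1) (j π.2) : ℝ) * ((M (j π.1) (j π.2) : ℝ) - 1)
        else (M (j π.1) (j π.2) : ℝ) * (M (j π'.1) (j π'.2) : ℝ)) =
          (M (j π.1) (j π.2) : ℝ) * (M (j π'.1) (j π'.2) : ℝ) -
          (if π = π' then (M (j π.1) (j π.2) : ℝ) else 0) := by
        intro π' _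
        by_cases h : π = π'
        · subst h
          rw [if_pos rfl, if_pos rfl]
          ring
        · rw [if_neg h, if_neg h, sub_zero]
      rw [Finset.sum_congr rfl h3, Finset.sum_sub_distrib, ← Finset.mul_sum, ← h1,
        Finset.sum_ite_eq, if_pos hπ]
    rw [Finset.sum_congr rfl h2, Finset.sum_sub_distrib, ← Finset.sum_mul, ← h1]
    ring
  rw [hdec, draw_sum]
  simp_rw [draw_sum]
  -- each term is at most T
  have hterm : ∀ π ∈ PP m, ∀ π' ∈ PP m, draw m s p (fun j => if π = π' then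
        (M (j π.1) (j π.2) : ℝ) * ((M (j π.1) (j π.2) : ℝ) - 1)
        else (M (j π.1) (j π.2) : ℝ) * (M (j π'.1) (j π'.2) : ℝ)) ≤
        Q / L ^ 2 + R / L ^ 3 + W ^ 2 / L ^ 4 := by
    rintro ⟨a, b⟩ hab ⟨c, d⟩ hcd
    have hab' : a < b := (Finset.mem_filter.mp hab).2
    have hcd' : c < d := (Finset.mem_filter.mp hcd).2
    by_cases h : ((a, b) : Fin m × Fin m) = (c, d)
    · simp only [h, if_true]
      rw [e2 a b hab'.ne]
      linarith
    · simp only [h, if_false]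
      by_cases hac : a = c
      · subst hac
        have hbd : b ≠ d := fun hbd => h (by rw [hbd])
        rw [e3 a b d hab'.ne hcd'.ne hbd]
        linarith
      · by_cases had : a = d
        · subst had
          have : (fun j : Fin m → ℕ => (M (j a) (j b) : ℝ) * (M (j c) (j a) : ℝ)) =
              fun j => (M (j a) (j b) : ℝ) * (M (j a) (j c) : ℝ) := by
            funext j
            rw [hs (j c) (j a)]
          rw [this, e3 a b c hab'.ne hcd'.ne' (hcd'.trans hab').ne']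
          linarith
        · by_cases hbc : b = c
          · subst hbc
            have : (fun j : Fin m → ℕ => (M (j a) (j b) : ℝ) * (M (j b) (j d) : ℝ)) =
                fun j => (M (j b) (j a) : ℝ) * (M (j b) (j d) : ℝ) := by
              funext j
              rw [hs (j a) (j b)]
            rw [this, e3 b a d hab'.ne' hcd'.ne (hab'.trans hcd').ne]
            linarith
          · by_cases hbd : b = d
            · subst hbd
              have : (fun j : Fin m → ℕ => (M (j a) (j b) : ℝ) * (M (j c) (j b) : ℝ)) =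
                  fun j => (M (j b) (j a) : ℝ) * (M (j b) (j c) : ℝ) := by
                funext j
                rw [hs (j a) (j b), hs (j c) (j b)]
              rw [this, e3 b a c hab'.ne' hcd'.ne' hac]
              linarith
            · rw [e4 a b c d hab'.ne hac had hbc hbd hcd'.ne]
              linarith
  have hcard : ((PP m).card : ℝ) ≤ (m : ℝ) ^ 2 := by
    have h1 : (PP m).card ≤ (univ : Finset (Fin m × Fin m)).card := Finset.card_filter_le _ _
    have h2 : (univ : Finset (Fin m × Fin m)).card = m ^ 2 := by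
      rw [Finset.card_univ, Fintype.card_prod, Fintype.card_fin, sq]
    rw [h2] at h1
    exact_mod_cast h1
  calc (∑ π ∈ PP m, ∑ π' ∈ PP m, draw m s p (fun j => if π = π' then
        (M (j π.1) (j π.2) : ℝ) * ((M (j π.1) (j π.2) : ℝ) - 1)
        else (M (j π.1) (j π.2) : ℝ) * (M (j π'.1) (j π'.2) : ℝ)))
      ≤ ∑ π ∈ PP m, ∑ π' ∈ PP m, (Q / L ^ 2 + R / L ^ 3 + W ^ 2 / L ^ 4) :=
        Finset.sum_le_sum fun π hπ => Finset.sum_le_sum fun π' hπ' => hterm π hπ π' hπ'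
    _ = ((PP m).card : ℝ) * ((PP m).card : ℝ) * (Q / L ^ 2 + R / L ^ 3 + W ^ 2 / L ^ 4) := by
        rw [Finset.sum_const, Finset.sum_const, nsmul_eq_mul, nsmul_eq_mul]
        ring
    _ ≤ (m : ℝ) ^ 4 * (Q / L ^ 2 + R / L ^ 3 + W ^ 2 / L ^ 4) := by
        refine mul_le_mul_of_nonneg_right ?_ (by positivity)
        calc ((PP m).card : ℝ) * ((PP m).card : ℝ) ≤ (m : ℝ) ^ 2 * (m : ℝ) ^ 2 :=
              mul_le_mul hcard hcard (by positivity) (by positivity)
          _ = (m : ℝ) ^ 4 := by ring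

end Pool.Agent.H746.TA.XX
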